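import Pool.Agent.Helper216.XRay.Stmt
import Pool.Agent.Helper216.XRay.P_NN_cont
import Pool.Agent.Helper216.XRay.P_NN_neg
import Pool.Agent.Helper216.XRay.P_NN_pos
import Pool.Agent.Helper216.XRay.P_NN_nice
import Pool.Agent.Helper216.XRay.P_limit_exists
import Pool.Agent.Helper216.XRay.P_mean_c
import Pool.Agent.Helper216.XRay.P_levels_diam
import Pool.Agent.Helper216.XRay.P_prof_K
import Pool.Agent.Helper216.XRay.P_prof_L
import Pool.Agent.Helper216.XRay.P_lim_conc
import Pool.Agent.Helper216.XRay.P_lim_anti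
import Pool.Agent.Helper216.XRay.P_body_admissible
import Pool.Agent.Helper216.XRay.P_body_interior
import Pool.Agent.Helper216.XRay.P_chord_one
import Pool.Agent.Helper216.XRay.P_chord_two

open Set Filter Topology MeasureTheory
open Pool.Agent.Helper216.XRay

namespace Pool.Agent.Results.MP_19f0f5_gt.NonUniqueness

/-- There are two distinct points and two different convex bodies, both admissible for them,
with the same chord function at the first point and the same chord function at the second. -/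
theorem result : ∃ x₁ x₂ : E2, x₁ ≠ x₂ ∧ ∃ K L : Set E2, K ≠ L ∧
    Admissible x₁ x₂ K ∧ Admissible x₁ x₂ L ∧
    (∀ θ ∈ Ico (0:ℝ) Real.pi, chord K x₁ θ = chord L x₁ θ) ∧
    (∀ θ ∈ Ico (0:ℝ) Real.pi, chord K x₂ θ = chord L x₂ θ) := by
  have hη0 : ∃ η ∈ Icc (4/100000:ℝ) (5/100000), ∫ X in (0:ℝ)..1, NN η X = 0 := by
    have h := intermediate_value_Icc (by norm_num : (4/100000:ℝ) ≤ 5/100000) NN_cont
    have h0 : (0:ℝ) ∈ Icc (∫ X in (0:ℝ)..1, NN (4/100000) X) (∫ X in (0:ℝ)..1, NN (5/100000) X) :=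
      ⟨NN_neg.le, NN_pos.le⟩
    obtain ⟨η, hη, h1⟩ := h h0
    exact ⟨η, hη, h1⟩
  obtain ⟨η, hη, hm⟩ := hη0
  obtain ⟨N', hN⟩ := NN_nice hη hm
  obtain ⟨w, c, hL, hfix⟩ := limit_exists hN
  have hc : c = 0 := mean_c hN hL hfix
  subst hc
  have hfix' : ∀ s ∈ Ioo (0:ℝ) 1, ∃ x ∈ Ioo 0 (1-s),
      hh w (NN η) x = w s ∧ hh w (NN η) (x+s) = w s := by
    intro s hs
    obtain ⟨x, hx, h1, h2⟩ := hfix s hs
    exact ⟨x, hx, by simpa using h1, by simpa using h2⟩
  have hd := levels_diam hN hL hfix'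
  have hK : Prof 1 2 (Kf w) := prof_K hL (fun a b hb ha => (lim_conc hN hL hb ha).2)
    (lim_anti hL).2.2
  have hLf : Prof (η-2) (η-1) (Lf η w) :=
    prof_L hη hL (fun a b hb ha => (lim_conc hN hL hb ha).1) hK
  have he1 : (0:ℝ) ∉ Icc (1:ℝ) 2 := by rintro ⟨h, _⟩; linarith
  have he2 : (0:ℝ) ∉ Icc (η-2) (η-1) := by rintro ⟨_, h⟩; linarith [hη.2]
  have he3 : (-100000:ℝ) ∉ Icc (1:ℝ) 2 := by rintro ⟨h, _⟩; linarith
  have he4 : (-100000:ℝ) ∉ Icc (η-2) (η-1) := by rintro ⟨h, _⟩; linarith [hη.1]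
  refine ⟨!₂[-100000, 0], !₂[0, 0], ?_, body 1 2 (Kf w), body (η-2) (η-1) (Lf η w), ?_,
    body_admissible hK (by norm_num) he3 he1, body_admissible hLf (by norm_num) he4 he2,
    fun θ _ => chord_one hη hd, fun θ _ => chord_two hη⟩
  · intro h
    have := congrArg (fun p : E2 => p 0) h
    norm_num at this
  · intro h
    have h1 : (!₂[3/2, 0] : E2) ∈ body 1 2 (Kf w) :=
      interior_subset (body_interior hK ⟨by norm_num, by norm_num⟩)
    rw [h] at h1
    have h2 := h1.1.2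
    have : ((!₂[3/2, 0] : E2) 0) = 3/2 := by simp
    rw [this] at h2
    linarith [hη.2]

end Pool.Agent.Results.MP_19f0f5_gt.NonUniqueness
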